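import Mathlib
import Pool.Agent.P.MP_bb0bfc_al.Main

/-!
Products of an even number of palindromes form a conjugation invariant filtration of a group.
A criterion for finite palindromic width for every generating set.
-/

open scoped commutatorElement

namespace Pool.Agent.P.MP_bb0bfc_al.EV

variable {G : Type*} [Group G]

/-- A conjugation invariant filtration exhausting the group. -/
structure Nm (G : Type*) [Group G] where
  Bd : ℕ → G → Prop
  one : Bd 0 1
  mono : ∀ {k l : ℕ} {a : G}, Bd k a → k ≤ l → Bd l a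
  mul : ∀ {k l : ℕ} {a b : G}, Bd k a → Bd l b → Bd (k + l) (a * b)
  inv : ∀ {k : ℕ} {a : G}, Bd k a → Bd k a⁻¹
  conj : ∀ {k : ℕ} {a : G} (x : G), Bd k a → Bd k (x * a * x⁻¹)
  tot : ∀ a : G, ∃ k, Bd k a

/-- `g` is the value of a palindromic word. -/
def Pal (S : Set G) (g : G) : Prop :=
  ∃ w : List G, w.reverse = w ∧ (∀ x ∈ w, x ∈ S ∨ x⁻¹ ∈ S) ∧ w.prod = g

lemma Pal.one (S : Set G) : Pal S 1 := ⟨[], by simp, by simp, by simp⟩

lemma Pal.gen {S : Set G} {x : G} (hx : x ∈ S) : Pal S x := ⟨[x], by simp, by simp [hx], by simp⟩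

lemma Pal.inv {S : Set G} {g : G} (h : Pal S g) : Pal S g⁻¹ := by
  obtain ⟨w, h1, h2, rfl⟩ := h
  refine ⟨(w.map fun x => x⁻¹).reverse, ?_, ?_, (List.prod_inv_reverse w).symm⟩
  · rw [List.reverse_reverse, ← List.map_reverse, h1]
  · intro x hx
    simp only [List.mem_reverse, List.mem_map] at hx
    obtain ⟨y, hy, rfl⟩ := hx
    rcases h2 y hy with h | h
    · right; simpa using h
    · left; exact h

lemma Pal.sandwich {S : Set G} {x y p : G} (h : (x, y) ∈ Rev S) (hp : Pal S p) :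
    Pal S (x * p * y⁻¹) := by
  obtain ⟨v, hv, hv1, hv2⟩ := h
  obtain ⟨w, h1, h2, rfl⟩ := hp
  simp only at hv1 hv2
  refine ⟨v ++ w ++ v.reverse, by simp [h1], ?_, by simp [hv1, hv2, mul_assoc]⟩
  intro z hz
  simp only [List.mem_append, List.mem_reverse] at hz
  rcases hz with (h | h) | h
  exacts [hv z h, h2 z h, hv z h]

lemma Rev_symm {S : Set G} {x y : G} (h : (x, y) ∈ Rev S) : (y, x) ∈ Rev S := by
  obtain ⟨v, hv, hv1, hv2⟩ := h
  simp only at hv1 hv2
  refine ⟨v.map fun x => x⁻¹, ?_, ?_, ?_⟩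
  · intro z hz
    simp only [List.mem_map] at hz
    obtain ⟨y, hy, rfl⟩ := hz
    rcases hv y hy with h | h
    · right; simpa using h
    · left; exact h
  · have := List.prod_inv_reverse v.reverse
    rw [List.map_reverse, List.reverse_reverse, hv2, inv_inv] at this
    exact this.symm
  · rw [← List.prod_inv_reverse, hv1]

lemma Rev_ab {S : Set G} {x y : G} (h : (x, y) ∈ Rev S) : x * y ∈ commutator G := by
  obtain ⟨v, -, hv1, hv2⟩ := h
  simp only at hv1 hv2
  have hq : Abelianization.of y⁻¹ = Abelianization.of x := by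
    rw [← hv1, ← hv2, map_list_prod, map_list_prod, List.map_reverse, List.prod_reverse]
  rw [← Abelianization.ker_of, MonoidHom.mem_ker, map_mul, ← hq, ← map_mul, inv_mul_cancel,
    map_one]

/-- `g` is a product of `2 k` palindromes. -/
def Ev (S : Set G) : ℕ → G → Prop
  | 0, g => g = 1
  | k + 1, g => ∃ p q r, Pal S p ∧ Pal S q ∧ Ev S k r ∧ g = p * q * r

lemma Ev.succ {S : Set G} {k : ℕ} {g : G} (h : Ev S k g) : Ev S (k + 1) g :=
  ⟨1, 1, g, Pal.one S, Pal.one S, h, by simp⟩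

lemma Ev.mono {S : Set G} {k l : ℕ} {g : G} (h : Ev S k g) (hl : k ≤ l) : Ev S l g := by
  induction hl with
  | refl => exact h
  | step _ ih => exact ih.succ

lemma Ev.mul {S : Set G} {k l : ℕ} {a b : G} (h : Ev S k a) (h' : Ev S l b) :
    Ev S (k + l) (a * b) := by
  induction k generalizing a with
  | zero => rw [show a = 1 from h]; simpa using h'
  | succ k ih =>
    obtain ⟨p, q, r, hp, hq, hr, rfl⟩ := h
    rw [show k + 1 + l = (k + l) + 1 by omega]
    exact ⟨p, q, r * b, hp, hq, ih hr, by simp [mul_assoc]⟩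

lemma Ev.pair {S : Set G} {p q : G} (hp : Pal S p) (hq : Pal S q) : Ev S 1 (p * q) :=
  ⟨p, q, 1, hp, hq, rfl, by simp⟩

lemma Ev.pal {S : Set G} {p : G} (hp : Pal S p) : Ev S 1 p := by
  simpa using Ev.pair hp (Pal.one S)

lemma Ev.inv {S : Set G} {k : ℕ} {a : G} (h : Ev S k a) : Ev S k a⁻¹ := by
  induction k generalizing a with
  | zero => rw [show a = 1 from h]; exact inv_one
  | succ k ih =>
    obtain ⟨p, q, r, hp, hq, hr, rfl⟩ := h
    have := (ih hr).mul (Ev.pair hq.inv hp.inv)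
    simpa [mul_assoc] using this

lemma Ev.conj {S : Set G} (hS : Subgroup.closure S = ⊤) {k : ℕ} {a : G} (x : G)
    (h : Ev S k a) : Ev S k (x * a * x⁻¹) := by
  obtain ⟨y, hy⟩ := exists_mem_Rev hS x
  induction k generalizing a with
  | zero => rw [show a = 1 from h]; show _ = 1; simp
  | succ k ih =>
    obtain ⟨p, q, r, hp, hq, hr, rfl⟩ := h
    exact ⟨_, _, _, hp.sandwich hy, hq.sandwich (Rev_symm hy), ih hr, by group⟩

lemma Ev.tot {S : Set G} (hS : Subgroup.closure S = ⊤) (g : G) : ∃ k, Ev S k g := by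
  have hg : g ∈ Subgroup.closure S := hS ▸ Subgroup.mem_top g
  induction hg using Subgroup.closure_induction with
  | mem x hx => exact ⟨1, Ev.pal (Pal.gen hx)⟩
  | one => exact ⟨0, rfl⟩
  | mul x y _ _ hx hy =>
    obtain ⟨k, hk⟩ := hx
    obtain ⟨l, hl⟩ := hy
    exact ⟨_, hk.mul hl⟩
  | inv x _ hx =>
    obtain ⟨k, hk⟩ := hx
    exact ⟨_, hk.inv⟩

lemma Ev.list {S : Set G} {k : ℕ} {g : G} (h : Ev S k g) :
    ∃ L : List (List G), L.length ≤ 2 * k ∧
      (∀ w ∈ L, w.reverse = w ∧ ∀ x ∈ w, x ∈ S ∨ x⁻¹ ∈ S) ∧ (L.map List.prod).prod = g := by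
  induction k generalizing g with
  | zero => exact ⟨[], by simp, by simp, by rw [show g = 1 from h]; simp⟩
  | succ k ih =>
    obtain ⟨p, q, r, ⟨u, u1, u2, rfl⟩, ⟨v, v1, v2, rfl⟩, hr, rfl⟩ := h
    obtain ⟨L, h1, h2, rfl⟩ := ih hr
    refine ⟨u :: v :: L, by simp; omega, ?_, by simp [mul_assoc]⟩
    intro w hw
    simp only [List.mem_cons] at hw
    rcases hw with rfl | rfl | hw
    exacts [⟨u1, u2⟩, ⟨v1, v2⟩, h2 w hw]

/-- The palindromic filtration. -/
def palNm {S : Set G} (hS : Subgroup.closure S = ⊤) : Nm G where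
  Bd := Ev S
  one := rfl
  mono := Ev.mono
  mul := Ev.mul
  inv := Ev.inv
  conj := Ev.conj hS
  tot := Ev.tot hS

lemma Nm.bdd_range (ν : Nm G) (f : ℕ → G) (m : ℕ) : ∃ K, ∀ i < m, ν.Bd K (f i) := by
  induction m with
  | zero => exact ⟨0, by simp⟩
  | succ m ih =>
    obtain ⟨K, hK⟩ := ih
    obtain ⟨k, hk⟩ := ν.tot (f m)
    refine ⟨K + k, fun i hi => ?_⟩
    rcases Nat.lt_succ_iff_lt_or_eq.1 hi with h | rfl
    · exact ν.mono (hK i h) (by omega)
    · exact ν.mono hk (by omega)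

lemma Nm.bdd_zpow (ν : Nm G) (w : G) {m : ℤ} (hm : m ≠ 0) {c : ℕ}
    (h : ∀ q : ℤ, ν.Bd c (w ^ (m * q))) : ∃ K, ∀ n : ℤ, ν.Bd K (w ^ n) := by
  obtain ⟨K, hK⟩ := ν.bdd_range (fun i => w ^ (i : ℤ)) m.natAbs
  refine ⟨c + K, fun n => ?_⟩
  have h0 := Int.emod_nonneg n hm
  have h1 := Int.emod_lt_abs n hm
  have := ν.mul (h (n / m)) (hK (n % m).toNat (by rw [Int.abs_eq_natAbs] at h1; omega))
  rwa [Int.toNat_of_nonneg h0, ← zpow_add, Int.mul_ediv_add_emod] at this

theorem pw_of (w : G) (wc : ∀ g, Commute w g)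
    (hb : ∀ ν : Nm G, ∃ K, ∀ g, ∃ n : ℤ, ν.Bd K (w ^ n * g))
    (hN : ∀ N : Subgroup G, N.Normal → ∀ y, y ∉ Subgroup.zpowers w → (∀ g, ⁅y, g⁆ ∈ N) →
      ∃ m : ℤ, m ≠ 0 ∧ w ^ m ∈ N)
    (hab : w ^ 2 ∉ commutator G) {S : Set G} (hS : Subgroup.closure S = ⊤) :
    ∃ n : ℕ, ∀ g : G, ∃ L : List (List G), L.length ≤ n ∧
      (∀ w ∈ L, w.reverse = w ∧ ∀ x ∈ w, x ∈ S ∨ x⁻¹ ∈ S) ∧ (L.map List.prod).prod = g := by
  have hK : ∀ x ∈ Ker S, Ev S 1 x := fun x hx => by
    have := (Pal.one S).sandwich (x := x) (y := 1) hx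
    exact Ev.pal (by simpa using this)
  have hker : ∀ m : ℤ, m ≠ 0 → w ^ m ∈ Ker S → ∃ K, ∀ n : ℤ, Ev S K (w ^ n) := fun m hm h =>
    (palNm hS).bdd_zpow w hm (c := 1) fun q => hK _ (by rw [zpow_mul]; exact zpow_mem h q)
  have hw : ∃ K, ∀ n : ℤ, Ev S K (w ^ n) := by
    obtain ⟨y, hy⟩ := exists_mem_Rev hS w
    have hy' := Rev_symm hy
    by_cases hz : y ∈ Subgroup.zpowers w
    · obtain ⟨j, rfl⟩ := Subgroup.mem_zpowers_iff.1 hz
      by_cases h1 : j = 1
      · subst h1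
        exact absurd (by simpa [sq] using Rev_ab hy) hab
      by_cases h2 : j = -1
      · subst h2
        refine (palNm hS).bdd_zpow w (m := 2) (by norm_num) (c := 1) fun q => ?_
        have h3 : (w ^ q, (w ^ (-1 : ℤ)) ^ q) ∈ Rev S := zpow_mem hy q
        have := Ev.pal ((Pal.one S).sandwich h3)
        have e : w ^ q * 1 * ((w ^ (-1 : ℤ)) ^ q)⁻¹ = w ^ (2 * q) := by group
        rwa [e] at this
      · have h3 : ((w ^ j) ^ j, w ^ j) ∈ Rev S := zpow_mem hy' j
        have h4 := (Rev S).mul_mem h3 ((Rev S).inv_mem hy)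
        refine hker (j * j - 1) (fun h => ?_) ?_
        · have : (j - 1) * (j + 1) = 0 := by linarith
          rcases mul_eq_zero.1 this with h | h <;> omega
        · show (w ^ (j * j - 1), 1) ∈ Rev S
          convert h4 using 1
          ext
          · simp only [Prod.fst_mul, Prod.fst_inv]; group
          · simp
    · obtain ⟨m, hm, h⟩ := hN (Ker S) (Ker_normal hS) y hz fun g => by
        obtain ⟨a, ha⟩ := exists_mem_Rev hS g
        have h4 := (Rev S).mul_mem ((Rev S).mul_mem ((Rev S).mul_mem hy' ha)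
          ((Rev S).inv_mem hy')) ((Rev S).inv_mem ha)
        show (⁅y, g⁆, 1) ∈ Rev S
        convert h4 using 1
        ext
        · simp [commutatorElement_def]
        · simp [(wc a).eq]
      exact hker m hm h
  obtain ⟨K, hK⟩ := hb (palNm hS)
  obtain ⟨K', hK'⟩ := hw
  refine ⟨2 * (K' + K), fun g => Ev.list ?_⟩
  obtain ⟨n, hn⟩ := hK g
  have := (hK' (-n)).mul hn
  simpa [← mul_assoc] using this

end Pool.Agent.P.MP_bb0bfc_al.EV
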