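import Mathlib
import Pool.Agent.P.MP_bb0bfc_al.EV.Abs

/-!
The algebra of a lift of the Thompson group of the circle with a central cube root of the
translation: normal forms, finite generation, boundedness modulo the centre.
-/

open scoped commutatorElement

namespace Pool.Agent.P.MP_bb0bfc_al.EV

variable {F G K : Type*} [Group F] [Group G] [Group K]

/-- Composite of the two endomorphisms along a binary word. -/
def lL (l : Bool → F →* F) : List Bool → F →* F
  | [] => MonoidHom.id F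
  | b :: u => (l b).comp (lL l u)

@[simp] lemma lL_nil (l : Bool → F →* F) (a : F) : lL l [] a = a := rfl
@[simp] lemma lL_cons (l : Bool → F →* F) (b : Bool) (u : List Bool) (a : F) :
    lL l (b :: u) a = l b (lL l u a) := rfl

lemma lL_append (l : Bool → F →* F) (u v : List Bool) (a : F) :
    lL l (u ++ v) a = lL l u (lL l v a) := by
  induction u with
  | nil => rfl
  | cons b u ih => simp [ih]

/-- The relations used. -/
structure Th (F G : Type*) [Group F] [Group G] where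
  l : Bool → F →* F
  r : F
  i : F →* G
  t : G
  w : G
  comm : ∀ a b, Commute (l false a) (l true b)
  c00 : ∀ a, r * l false (l false a) = l false a * r
  c01 : ∀ a, r * l false (l true a) = l true (l false a) * r
  c1 : ∀ a, r * l true a = l true (l true a) * r
  pent : r * r = l true r * r * l false r
  genF : Subgroup.closure (Set.range fun u => lL l u r) = ⊤
  genG : Subgroup.closure (Set.range i ∪ {t, w}) = ⊤
  wc : ∀ g, Commute w g
  tt : t * t = w ^ 3
  t0 : ∀ a, t * i (l false a) = i (l true a) * t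
  trt : t * i r * t = w ^ 3 * (i r⁻¹ * t * i r⁻¹)

namespace Th

variable (T : Th F G)

/-- The stabiliser of the midpoint. -/
def B : Subgroup F where
  carrier := {g | ∃ a b, g = T.l false a * T.l true b}
  one_mem' := ⟨1, 1, by simp⟩
  mul_mem' := by
    rintro _ _ ⟨a, b, rfl⟩ ⟨c, d, rfl⟩
    refine ⟨a * c, b * d, ?_⟩
    rw [map_mul, map_mul, mul_assoc, ← mul_assoc (T.l true b), ← (T.comm c b).eq]
    simp [mul_assoc]
  inv_mem' := by
    rintro _ ⟨a, b, rfl⟩
    exact ⟨a⁻¹, b⁻¹, by rw [mul_inv_rev, ← map_inv, ← map_inv, (T.comm a⁻¹ b⁻¹).eq]⟩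

lemma l_mem (b : Bool) (a : F) : T.l b a ∈ T.B := by
  cases b
  exacts [⟨a, 1, by simp⟩, ⟨1, a, by simp⟩]

/-- Coset representatives of `B`. -/
def rep : List Bool → F
  | [] => 1
  | false :: u => T.l false (rep u) * T.r⁻¹
  | true :: u => T.l true (rep u) * T.r

lemma d00 (a : F) : T.r⁻¹ * T.l false a = T.l false (T.l false a) * T.r⁻¹ := by
  rw [inv_mul_eq_iff_eq_mul, ← mul_assoc, T.c00]; simp
lemma d10 (a : F) : T.r⁻¹ * T.l true (T.l false a) = T.l false (T.l true a) * T.r⁻¹ := by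
  rw [inv_mul_eq_iff_eq_mul, ← mul_assoc, T.c01]; simp
lemma d11 (a : F) : T.r⁻¹ * T.l true (T.l true a) = T.l true a * T.r⁻¹ := by
  rw [inv_mul_eq_iff_eq_mul, ← mul_assoc, T.c1]; simp

lemma p0 : T.l false T.r = T.r⁻¹ * (T.l true T.r)⁻¹ * (T.r * T.r) := by
  rw [T.pent]; group
lemma p1 : T.l true T.r = T.r * T.r * (T.l false T.r)⁻¹ * T.r⁻¹ := by
  rw [T.pent]; group

lemma shift0 {b : F} (hb : b ∈ T.B) : ∃ c ∈ T.B, T.l false b * T.r⁻¹ = T.r⁻¹ * c := by
  obtain ⟨x, y, rfl⟩ := hb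
  refine ⟨_, mul_mem (T.l_mem false x) (T.l_mem true (T.l false y)), ?_⟩
  rw [← mul_assoc, T.d00, mul_assoc, T.d10, map_mul, mul_assoc]

lemma shift1 {b : F} (hb : b ∈ T.B) : ∃ c ∈ T.B, T.l true b * T.r = T.r * c := by
  obtain ⟨x, y, rfl⟩ := hb
  refine ⟨_, mul_mem (T.l_mem false (T.l true x)) (T.l_mem true y), ?_⟩
  rw [← mul_assoc, T.c01, mul_assoc, T.c1, map_mul, mul_assoc]

/-- `s` maps the union of the cosets to itself. -/
def Ok (s : F) : Prop := ∀ u, ∃ u', ∃ b ∈ T.B, s * T.rep u = T.rep u' * b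

lemma ok_r : T.Ok T.r := by
  rintro (_ | ⟨_ | _, u⟩)
  · exact ⟨[true], 1, one_mem _, by simp [rep]⟩
  · rcases u with _ | ⟨_ | _, u⟩
    · exact ⟨[], 1, one_mem _, by simp [rep]⟩
    · refine ⟨false :: u, T.l true T.r, T.l_mem _ _, ?_⟩
      simp only [rep, map_mul, map_inv, ← mul_assoc]
      rw [T.c00, T.p1]; group
    · refine ⟨true :: false :: u, 1, one_mem _, ?_⟩
      simp only [rep, map_mul, map_inv, ← mul_assoc]
      rw [T.c01, T.p0]; group
  · refine ⟨true :: true :: u, T.l false T.r, T.l_mem _ _, ?_⟩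
    simp only [rep, map_mul, ← mul_assoc]
    rw [T.c1, mul_assoc, T.pent]; group

lemma ok_rinv : T.Ok T.r⁻¹ := by
  rintro (_ | ⟨_ | _, u⟩)
  · exact ⟨[false], 1, one_mem _, by simp [rep]⟩
  · refine ⟨false :: false :: u, (T.l true T.r)⁻¹, inv_mem (T.l_mem _ _), ?_⟩
    simp only [rep, map_mul, map_inv, ← mul_assoc]
    rw [T.d00, T.p1]; group
  · rcases u with _ | ⟨_ | _, u⟩
    · exact ⟨[], 1, one_mem _, by simp [rep]⟩
    · refine ⟨false :: true :: u, 1, one_mem _, ?_⟩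
      simp only [rep, map_mul, map_inv, ← mul_assoc]
      rw [T.d10, T.p0]; group
    · refine ⟨true :: u, (T.l false T.r)⁻¹, inv_mem (T.l_mem _ _), ?_⟩
      simp only [rep, map_mul, ← mul_assoc]
      rw [T.d11, T.p1]; group

lemma ok_l {s : F} (h : T.Ok s) (b : Bool) : T.Ok (T.l b s) := by
  cases b
  · rintro (_ | ⟨_ | _, u⟩)
    · exact ⟨[], _, T.l_mem false s, by simp [rep]⟩
    · obtain ⟨u', c, hc, e⟩ := h u
      obtain ⟨c', hc', e'⟩ := T.shift0 hc
      refine ⟨false :: u', c', hc', ?_⟩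
      simp only [rep]
      rw [← mul_assoc, ← map_mul, e, map_mul, mul_assoc, e', mul_assoc]
    · refine ⟨true :: u, _, T.l_mem false (T.l false s), ?_⟩
      simp only [rep]
      rw [← mul_assoc, (T.comm _ _).eq, mul_assoc, ← T.c00, mul_assoc]
  · rintro (_ | ⟨_ | _, u⟩)
    · exact ⟨[], _, T.l_mem true s, by simp [rep]⟩
    · refine ⟨false :: u, _, T.l_mem true (T.l true s), ?_⟩
      simp only [rep]
      rw [← mul_assoc, ← (T.comm _ _).eq, mul_assoc, ← T.d11, mul_assoc]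
    · obtain ⟨u', c, hc, e⟩ := h u
      obtain ⟨c', hc', e'⟩ := T.shift1 hc
      refine ⟨true :: u', c', hc', ?_⟩
      simp only [rep]
      rw [← mul_assoc, ← map_mul, e, map_mul, mul_assoc, e', mul_assoc]

lemma ok_lL {s : F} (h : T.Ok s) (v : List Bool) : T.Ok (lL T.l v s) := by
  induction v with
  | nil => exact h
  | cons b v ih => exact T.ok_l ih b

lemma ok_all (f : F) : T.Ok f := by
  have hf : f ∈ Subgroup.closure (Set.range fun u => lL T.l u T.r) := T.genF ▸ Subgroup.mem_top f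
  have hm : ∀ {a b : F}, T.Ok a → T.Ok b → T.Ok (a * b) := fun ha hb u => by
    obtain ⟨u', c, hc, e⟩ := hb u
    obtain ⟨u'', c', hc', e'⟩ := ha u'
    exact ⟨u'', c' * c, mul_mem hc' hc, by rw [mul_assoc, e, ← mul_assoc, e', mul_assoc]⟩
  induction hf using Subgroup.closure_induction_left with
  | one => exact fun u => ⟨u, 1, one_mem _, by simp⟩
  | mul_left x hx y _ ih =>
    obtain ⟨v, rfl⟩ := hx
    exact hm (T.ok_lL T.ok_r v) ih
  | inv_mul_cancel x hx y _ ih =>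
    obtain ⟨v, rfl⟩ := hx
    exact hm (by simpa using T.ok_lL T.ok_rinv v) ih

lemma decF (f : F) : f ∈ T.B ∨ ∃ b ∈ T.B, ∃ c ∈ T.B, f = b * T.r * c ∨ f = b * T.r⁻¹ * c := by
  obtain ⟨u, c, hc, e⟩ := T.ok_all f []
  rcases u with _ | ⟨_ | _, u⟩
  · left
    simp only [rep, mul_one, one_mul] at e
    exact e ▸ hc
  · exact Or.inr ⟨_, T.l_mem false (T.rep u), c, hc, Or.inr (by simpa [rep] using e)⟩
  · exact Or.inr ⟨_, T.l_mem true (T.rep u), c, hc, Or.inl (by simpa [rep] using e)⟩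

lemma wz (n : ℤ) (g : G) : g * T.w ^ n = T.w ^ n * g := ((T.wc g).zpow_left n).eq.symm

lemma t1 (a : F) : T.t * T.i (T.l true a) = T.i (T.l false a) * T.t := by
  have h : T.t * (T.t * T.i (T.l true a)) = T.t * (T.i (T.l false a) * T.t) := by
    rw [← mul_assoc, ← mul_assoc T.t (T.i _), T.t0, mul_assoc (T.i _), T.tt,
      ((T.wc _).pow_left 3).eq]
  exact mul_left_cancel h

lemma tB {b : F} (hb : b ∈ T.B) :
    ∃ c : F, T.t * T.i b = T.i c * T.t ∧ T.i b * T.t = T.t * T.i c := by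
  obtain ⟨x, y, rfl⟩ := hb
  refine ⟨T.l true x * T.l false y, ?_, ?_⟩
  · rw [map_mul, map_mul, ← mul_assoc, T.t0, mul_assoc, T.t1, mul_assoc]
  · rw [map_mul, map_mul, ← mul_assoc, T.t1, mul_assoc, mul_assoc, T.t0]

lemma trt' : T.t * T.i T.r⁻¹ * T.t = T.i T.r * T.t * T.i T.r := by
  have h := T.trt
  rw [← T.tt] at h
  simp only [map_inv] at h ⊢
  have h2 : T.i T.r * T.t = T.t * ((T.i T.r)⁻¹ * T.t * (T.i T.r)⁻¹) := by
    apply mul_left_cancel (a := T.t)
    simpa [mul_assoc] using h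
  rw [h2]; group

/-- Normal form in `G`. -/
def NF (g : G) : Prop :=
  ∃ n : ℤ, ∃ f : F, g = T.w ^ n * T.i f ∨ ∃ f' : F, g = T.w ^ n * (T.i f * T.t * T.i f')

lemma NF.w {T : Th F G} {g : G} (h : T.NF g) (m : ℤ) : T.NF (T.w ^ m * g) := by
  obtain ⟨n, f, rfl | ⟨f', rfl⟩⟩ := h
  · exact ⟨m + n, f, Or.inl (by rw [zpow_add, mul_assoc])⟩
  · exact ⟨m + n, f, Or.inr ⟨f', by rw [zpow_add]; simp only [mul_assoc]⟩⟩

lemma NF.i {T : Th F G} {g : G} (h : T.NF g) (a : F) : T.NF (T.i a * g) := by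
  obtain ⟨n, f, rfl | ⟨f', rfl⟩⟩ := h
  · exact ⟨n, a * f, Or.inl (by rw [← mul_assoc, T.wz, map_mul, mul_assoc])⟩
  · exact ⟨n, a * f, Or.inr ⟨f', by rw [← mul_assoc, T.wz, map_mul]; simp only [mul_assoc]⟩⟩

lemma NF.t {T : Th F G} {g : G} (h : T.NF g) : T.NF (T.t * g) := by
  obtain ⟨n, f, rfl | ⟨f', rfl⟩⟩ := h
  · exact ⟨n, 1, Or.inr ⟨f, by rw [← mul_assoc, T.wz]; simp [mul_assoc]⟩⟩
  · rw [← mul_assoc, T.wz, mul_assoc]
    refine NF.w ?_ n
    rcases T.decF f with hb | ⟨b, hb, c, hc, rfl | rfl⟩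
    · obtain ⟨d, e, -⟩ := T.tB hb
      refine ⟨3, d * f', Or.inl ?_⟩
      rw [← mul_assoc, ← mul_assoc, e, mul_assoc (T.i d), T.tt, ← ((T.wc _).pow_left 3).eq,
        map_mul, mul_assoc, zpow_ofNat]
    · obtain ⟨d, e, -⟩ := T.tB hb
      obtain ⟨d', -, e'⟩ := T.tB hc
      refine ⟨3, d * T.r⁻¹, Or.inr ⟨T.r⁻¹ * d' * f', ?_⟩⟩
      calc T.t * (T.i (b * T.r * c) * T.t * T.i f')
          = (T.t * T.i b) * T.i T.r * (T.i c * T.t) * T.i f' := by simp only [map_mul, mul_assoc]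
        _ = T.i d * (T.t * T.i T.r * T.t) * T.i d' * T.i f' := by
            rw [e, e']; simp only [mul_assoc]
        _ = _ := by
            rw [T.trt, ← mul_assoc, ← ((T.wc _).pow_left 3).eq]
            simp only [map_mul, mul_assoc, zpow_ofNat]
    · obtain ⟨d, e, -⟩ := T.tB hb
      obtain ⟨d', -, e'⟩ := T.tB hc
      refine ⟨0, d * T.r, Or.inr ⟨T.r * d' * f', ?_⟩⟩
      calc T.t * (T.i (b * T.r⁻¹ * c) * T.t * T.i f')
          = (T.t * T.i b) * T.i T.r⁻¹ * (T.i c * T.t) * T.i f' := by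
            simp only [map_mul, mul_assoc]
        _ = T.i d * (T.t * T.i T.r⁻¹ * T.t) * T.i d' * T.i f' := by
            rw [e, e']; simp only [mul_assoc]
        _ = _ := by
            rw [T.trt']
            simp only [map_mul, mul_assoc, zpow_zero, one_mul]

lemma tinv : T.t⁻¹ = T.w ^ (-3 : ℤ) * T.t := by
  rw [show T.w ^ (-3 : ℤ) = (T.w ^ 3)⁻¹ by group, ← T.tt]; group

theorem nf (g : G) : T.NF g := by
  have hg : g ∈ Subgroup.closure (Set.range T.i ∪ {T.t, T.w}) := T.genG ▸ Subgroup.mem_top g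
  induction hg using Subgroup.closure_induction_left with
  | one => exact ⟨0, 1, Or.inl (by simp)⟩
  | mul_left x hx y _ ih =>
    rcases hx with ⟨a, rfl⟩ | rfl | rfl
    · exact ih.i a
    · exact ih.t
    · simpa using ih.w 1
  | inv_mul_cancel x hx y _ ih =>
    rcases hx with ⟨a, rfl⟩ | rfl | rfl
    · simpa using ih.i a⁻¹
    · rw [T.tinv, mul_assoc]; exact ih.t.w _
    · simpa using ih.w (-1)

end Th

end Pool.Agent.P.MP_bb0bfc_al.EV
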