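import Mathlib
import Pool.Agent.P.MP_bb0bfc_al.EV.Th

/-!
Conjugacy of cones, finite generation, boundedness modulo the centre and normal subgroups.
-/

open scoped commutatorElement

namespace Pool.Agent.P.MP_bb0bfc_al.EV

variable {F G K : Type*} [Group F] [Group G] [Group K]

namespace Th

variable (T : Th F G)

/-- The copies of `F` along `u` and `v` are conjugate by an element of `H`. -/
def Rel (j : F →* K) (H : Subgroup K) (u v : List Bool) : Prop :=
  ∃ e ∈ H, ∀ a, e * j (lL T.l u a) = j (lL T.l v a) * e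

variable {T} {j : F →* K} {H : Subgroup K} {u v s : List Bool}

lemma Rel.refl (u : List Bool) : T.Rel j H u u := ⟨1, one_mem _, by simp⟩

lemma Rel.symm (h : T.Rel j H u v) : T.Rel j H v u := by
  obtain ⟨e, he, h⟩ := h
  refine ⟨e⁻¹, inv_mem he, fun a => ?_⟩
  rw [inv_mul_eq_iff_eq_mul, ← mul_assoc, h]; simp

lemma Rel.trans (h : T.Rel j H u v) (h' : T.Rel j H v s) : T.Rel j H u s := by
  obtain ⟨e, he, h⟩ := h
  obtain ⟨e', he', h'⟩ := h'
  exact ⟨e' * e, mul_mem he' he, fun a => by rw [mul_assoc, h, ← mul_assoc, h', mul_assoc]⟩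

lemma Rel.append (h : T.Rel j H u v) (s : List Bool) : T.Rel j H (u ++ s) (v ++ s) := by
  obtain ⟨e, he, h⟩ := h
  exact ⟨e, he, fun a => by rw [lL_append, lL_append, h]⟩

lemma Rel.eq (h : T.Rel j H u v) :
    ∃ e ∈ H, ∀ a, j (lL T.l v a) = e * j (lL T.l u a) * e⁻¹ := by
  obtain ⟨e, he, h⟩ := h
  exact ⟨e, he, fun a => by rw [h]; simp⟩

lemma rel_int (h1 : j T.r ∈ H) (h2 : j (T.l false T.r) ∈ H) (v : List Bool) :
    T.Rel j H (false :: true :: v) [false, true] := by
  have a1 : T.Rel j H [false, false] [false] :=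
    ⟨_, h1, fun a => by simp only [lL_cons, lL_nil, ← map_mul, T.c00]⟩
  have a2 : T.Rel j H [false, false, true] [false, true, false] :=
    ⟨_, h2, fun a => by simp only [lL_cons, lL_nil]; rw [← map_mul, ← map_mul, T.c01]; simp⟩
  have a3 : T.Rel j H [false, true] [false, true, true] :=
    ⟨_, h2, fun a => by simp only [lL_cons, lL_nil]; rw [← map_mul, ← map_mul, T.c1]; simp⟩
  induction v with
  | nil => exact Rel.refl _
  | cons b v ih =>
    cases b
    · exact ((a2.symm.trans (a1.append [true])).append v).trans ih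
    · exact (a3.symm.append v).trans ih

lemma rel_all {H : Subgroup G} (h1 : T.i T.r ∈ H) (h2 : T.i (T.l false T.r) ∈ H) (h3 : T.t ∈ H)
    (b : Bool) (v : List Bool) : T.Rel T.i H (b :: v) [false, true] := by
  have a1 : T.Rel T.i H [false, false] [false] :=
    ⟨_, h1, fun a => by simp only [lL_cons, lL_nil, ← map_mul, T.c00]⟩
  have a2 : T.Rel T.i H [false, true] [true, false] :=
    ⟨_, h1, fun a => by simp only [lL_cons, lL_nil, ← map_mul, T.c01]⟩
  have a3 : T.Rel T.i H [false] [true] := ⟨_, h3, fun a => T.t0 a⟩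
  have a4 : T.Rel T.i H [false] [false, true] :=
    a1.symm.trans ((a3.append [false]).trans a2.symm)
  cases b
  · exact (a4.append v).trans (rel_int h1 h2 v)
  · exact ((a3.symm.trans a4).append v).trans (rel_int h1 h2 v)

lemma rel_top (b c : Bool) (u v : List Bool) : T.Rel T.i ⊤ (b :: u) (c :: v) :=
  (rel_all (H := ⊤) trivial trivial trivial b u).trans
    (rel_all (H := ⊤) trivial trivial trivial c v).symm

variable (T)

include T in
theorem fg : Group.FG G := by
  classical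
  refine Group.fg_iff.2 ⟨{T.i T.r, T.i (T.l false T.r), T.t, T.w}, ?_, by simp⟩
  set H := Subgroup.closure {T.i T.r, T.i (T.l false T.r), T.t, T.w}
  have h1 : T.i T.r ∈ H := Subgroup.subset_closure (by simp)
  have h2 : T.i (T.l false T.r) ∈ H := Subgroup.subset_closure (by simp)
  have h3 : T.t ∈ H := Subgroup.subset_closure (by simp)
  have h4 : T.w ∈ H := Subgroup.subset_closure (by simp)
  have h5 : (⊤ : Subgroup F) ≤ H.comap T.i := by
    rw [← T.genF, Subgroup.closure_le]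
    rintro _ ⟨_ | ⟨b, v⟩, rfl⟩
    · exact h1
    · obtain ⟨e, he, h⟩ := ((rel_all h1 h2 h3 false []).trans (rel_all h1 h2 h3 b v).symm).eq
      show T.i _ ∈ H
      rw [h]
      exact mul_mem (mul_mem he h2) (inv_mem he)
  rw [eq_top_iff, ← T.genG, Subgroup.closure_le]
  rintro _ (⟨a, rfl⟩ | rfl | rfl)
  exacts [h5 (Subgroup.mem_top a), h3, h4]

lemma int_mem (a : F) : T.l false (T.l true a) ∈ commutator F := by
  have hc : ∀ v, (T.l false (T.l true T.r))⁻¹ * T.l false (T.l true (lL T.l v T.r)) ∈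
      commutator F := fun v => by
    obtain ⟨e, -, h⟩ := (rel_int (T := T) (j := MonoidHom.id F) (H := ⊤) trivial trivial v).symm.eq
    have h' := h T.r
    simp only [MonoidHom.id_apply, lL_cons, lL_nil] at h'
    rw [h']
    have := Subgroup.commutator_mem_commutator (Subgroup.mem_top (T.l false (T.l true T.r))⁻¹)
      (Subgroup.mem_top e)
    simpa [commutatorElement_def, mul_assoc, commutator_def] using this
  have h0 : T.l false (T.l true T.r) ∈ commutator F := by
    have h1 := hc [true]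
    have h2 := hc [false]
    have hp := congrArg (fun x => T.l false (T.l true x)) T.pent
    simp only [map_mul, lL_cons, lL_nil] at hp h1 h2
    set x := T.l false (T.l true T.r)
    set y := T.l false (T.l true (T.l true T.r))
    set z := T.l false (T.l true (T.l false T.r))
    have hN : (commutator F).Normal := inferInstance
    have e : x = (x⁻¹ * (x⁻¹ * y)⁻¹ * x⁻¹⁻¹) * (x⁻¹ * z)⁻¹ := by
      have : z = x⁻¹ * y⁻¹ * (x * x) := by rw [hp]; group
      rw [this]; group
    rw [e]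
    exact mul_mem (hN.conj_mem _ (inv_mem h1) _) (inv_mem h2)
  have h5 : (⊤ : Subgroup F) ≤ (commutator F).comap ((T.l false).comp (T.l true)) := by
    rw [← T.genF, Subgroup.closure_le]
    rintro _ ⟨v, rfl⟩
    have := mul_mem h0 (hc v)
    simpa using this
  exact h5 (Subgroup.mem_top a)

lemma spread {h : F} (hh : h ∈ commutator F) :
    ∃ X p q : F, X * (T.l true X)⁻¹ * T.l true ⁅p, q⁆ = T.l false h := by
  rw [commutator_eq_closure] at hh
  have key : ∀ (f g h' : F), (∃ X p q : F, X * (T.l true X)⁻¹ * T.l true ⁅p, q⁆ = T.l false h') →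
      ∃ X p q : F, X * (T.l true X)⁻¹ * T.l true ⁅p, q⁆ = T.l false (⁅f, g⁆ * h') := by
    rintro f g h' ⟨X, p, q, e⟩
    refine ⟨T.l false (⁅f, g⁆ * h') * T.l true X, T.l false f * T.l true p,
      T.l false g * T.l true q, ?_⟩
    have e1 : ⁅T.l false f * T.l true p, T.l false g * T.l true q⁆ =
        T.l false ⁅f, g⁆ * T.l true ⁅p, q⁆ := by
      let φ : F × F →* F := MonoidHom.noncommCoprod (T.l false) (T.l true) T.comm
      have := map_commutatorElement φ (f, p) (g, q)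
      exact this.symm
    have e2 : X * (T.l false (⁅f, g⁆ * h') * T.l true X)⁻¹ *
        (T.l false ⁅f, g⁆ * T.l true ⁅p, q⁆) = 1 := by
      have c1 : (T.l false (⁅f, g⁆ * h'))⁻¹ * (T.l false ⁅f, g⁆ * T.l true ⁅p, q⁆) =
          T.l true ⁅p, q⁆ * (T.l false h')⁻¹ := by
        rw [← mul_assoc, ← map_inv, ← map_mul, ← map_inv, ← (T.comm _ _).eq]
        congr 2
        group
      rw [mul_inv_rev, mul_assoc, mul_assoc, c1, ← e]
      group
    rw [e1, mul_assoc, mul_assoc, ← map_inv, ← map_mul, ← map_mul, ← mul_assoc X, e2]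
    simp
  induction hh using Subgroup.closure_induction_left with
  | one => exact ⟨1, 1, 1, by simp⟩
  | mul_left x hx y _ ih =>
    obtain ⟨f, g, rfl⟩ := hx
    exact key f g y ih
  | inv_mul_cancel x hx y _ ih =>
    obtain ⟨f, g, rfl⟩ := hx
    rw [commutatorElement_inv]
    exact key g f y ih

lemma comm_eq {p q s : K} (h : Commute (s * p⁻¹ * s⁻¹) q) :
    ⁅p, q⁆ = ⁅p, s⁆ * (q * ⁅p, s⁆⁻¹ * q⁻¹) := by
  have e : ⁅p, s⁆ * (q * ⁅p, s⁆⁻¹ * q⁻¹) =
      p * ((s * p⁻¹ * s⁻¹) * q) * (s * p⁻¹ * s⁻¹)⁻¹ * p⁻¹ * q⁻¹ := by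
    simp only [commutatorElement_def]; group
  rw [e, h.eq, commutatorElement_def]; group

lemma _root_.Pool.Agent.P.MP_bb0bfc_al.EV.Nm.comm (ν : Nm K) {k : ℕ} {s : K} (h : ν.Bd k s)
    (p : K) : ν.Bd (k + k) ⁅p, s⁆ := by
  have := ν.mul (ν.conj p h) (ν.inv h)
  simpa [commutatorElement_def] using this

lemma bd_l (ν : Nm G) : ∃ k, ∀ b a, ν.Bd k (T.i (T.l b a)) := by
  obtain ⟨k1, h1⟩ := ν.tot (T.i T.r)
  obtain ⟨k2, h2⟩ := ν.tot T.t
  refine ⟨(k1 + k1) + ((k2 + k2) + (k2 + k2)), fun b a => ?_⟩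
  obtain ⟨e, -, he⟩ := (rel_top (T := T) true b [false, false, true] []).eq
  have he' := he a
  simp only [lL_cons, lL_nil] at he'
  rw [he']
  refine ν.conj e ?_
  obtain ⟨X, p, q, h⟩ := T.spread (T.int_mem a)
  rw [← h, map_mul, map_mul]
  refine ν.mul ?_ ?_
  · have := ν.comm h1 (T.i (T.l true X))
    have e2 : T.l true (X * (T.l true X)⁻¹) = ⁅T.l true X, T.r⁆ := by
      rw [map_mul, ← map_inv, commutatorElement_def, mul_assoc, mul_assoc, ← mul_assoc T.r,
        ← map_inv (T.l true) X, T.c1]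
      simp
    rw [e2, map_commutatorElement]
    exact this
  · rw [map_commutatorElement, map_commutatorElement, map_commutatorElement,
      comm_eq (s := T.t)]
    · exact ν.mul (ν.comm h2 _) (ν.conj _ (ν.inv (ν.comm h2 _)))
    · rw [← map_inv, ← map_inv, T.t1, mul_inv_cancel_right]
      exact (T.comm _ _).map T.i

theorem bdd (ν : Nm G) : ∃ K, ∀ g, ∃ n : ℤ, ν.Bd K (T.w ^ n * g) := by
  obtain ⟨k, hk⟩ := T.bd_l ν
  obtain ⟨k1, h1⟩ := ν.tot (T.i T.r)
  obtain ⟨k2, h2⟩ := ν.tot T.t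
  have hB : ∀ b ∈ T.B, ν.Bd (k + k) (T.i b) := by
    rintro _ ⟨x, y, rfl⟩
    rw [map_mul]
    exact ν.mul (hk _ _) (hk _ _)
  have hF : ∀ f, ν.Bd ((k + k) + k1 + (k + k)) (T.i f) := fun f => by
    rcases T.decF f with hb | ⟨b, hb, c, hc, rfl | rfl⟩
    · exact ν.mono (hB f hb) (by omega)
    · rw [map_mul, map_mul]
      exact ν.mul (ν.mul (hB b hb) h1) (hB c hc)
    · rw [map_mul, map_mul, map_inv]
      exact ν.mul (ν.mul (hB b hb) (ν.inv h1)) (hB c hc)
  refine ⟨((k + k) + k1 + (k + k)) + k2 + ((k + k) + k1 + (k + k)), fun g => ?_⟩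
  obtain ⟨n, f, rfl | ⟨f', rfl⟩⟩ := T.nf g
  · exact ⟨-n, by simpa [← mul_assoc] using ν.mono (hF f) (by omega)⟩
  · exact ⟨-n, by simpa [← mul_assoc] using ν.mul (ν.mul (hF f) h2) (hF f')⟩

theorem w3_mem (N : Subgroup G) (hN : N.Normal) (b : Bool) (u : List Bool)
    (h : ∀ p q, ⁅T.i (lL T.l (b :: u) p), T.i (lL T.l (b :: u) q)⁆ ∈ N) : T.w ^ 3 ∈ N := by
  have h1 : commutator F ≤ N.comap (T.i.comp (lL T.l (b :: u))) := by
    rw [commutator_def, Subgroup.commutator_le]
    intro p _ q _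
    have := h p q
    rwa [← map_commutatorElement, ← map_commutatorElement] at this
  have h2 : ∀ c, T.i (T.l c T.r) ∈ N := fun c => by
    obtain ⟨e, -, he⟩ := (rel_top (T := T) b c (u ++ [false, true]) []).eq
    have he' := he T.r
    rw [← List.cons_append, lL_append] at he'
    simp only [lL_nil, lL_cons (u := []), lL_cons (u := [true])] at he'
    rw [he']
    exact hN.conj_mem _ (h1 (T.int_mem T.r)) e
  have h3 : T.i T.r ∈ N := by
    have hp := congrArg T.i T.pent
    simp only [map_mul] at hp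
    have e : T.i T.r = ((T.i T.r)⁻¹ * T.i (T.l true T.r) * (T.i T.r)⁻¹⁻¹) * T.i (T.l false T.r) := by
      rw [inv_inv, mul_assoc, mul_assoc, ← mul_assoc (T.i (T.l true T.r)), ← hp]; simp
    rw [e]
    exact mul_mem (hN.conj_mem _ (h2 true) _) (h2 false)
  have h4 : T.t ∈ N := by
    have hr := T.trt'
    simp only [map_inv] at hr
    have e : T.t = T.i T.r * (T.t⁻¹ * T.i T.r * T.t⁻¹⁻¹) * T.i T.r := by
      apply mul_left_cancel (a := T.t * (T.i T.r)⁻¹)
      rw [hr]; group
    rw [e]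
    exact mul_mem (mul_mem h3 (hN.conj_mem _ h3 _)) h3
  rw [← T.tt]
  exact mul_mem h4 h4

theorem w3_comm : T.w ^ 3 ∈ commutator G :=
  T.w3_mem _ inferInstance false [] fun _ _ =>
    Subgroup.commutator_mem_commutator (Subgroup.mem_top _) (Subgroup.mem_top _)

theorem normal_mem (hd : ∀ y, y ∉ Subgroup.zpowers T.w → ∃ b u, ∀ p q,
      Commute (y * T.i (lL T.l (b :: u) p) * y⁻¹) (T.i (lL T.l (b :: u) q)))
    (N : Subgroup G) (hN : N.Normal) (y : G) (hy : y ∉ Subgroup.zpowers T.w)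
    (h : ∀ g, ⁅y, g⁆ ∈ N) : ∃ m : ℤ, m ≠ 0 ∧ T.w ^ m ∈ N := by
  obtain ⟨b, u, hc⟩ := hd y hy
  refine ⟨3, by norm_num, ?_⟩
  rw [zpow_ofNat]
  refine T.w3_mem N hN b u fun p q => ?_
  have h1 : ⁅T.i (lL T.l (b :: u) p), y⁆ ∈ N := by
    rw [← commutatorElement_inv]; exact inv_mem (h _)
  rw [comm_eq (s := y)]
  · exact mul_mem h1 (hN.conj_mem _ (inv_mem h1) _)
  · rw [← map_inv, ← map_inv]; exact hc _ _

end Th

end Pool.Agent.P.MP_bb0bfc_al.EV
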