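import Mathlib
import Pool.Agent.P.MP_bb0bfc_al.EV.Bd

/-!
The concrete group: permutations of the integers times the binary sequences.
-/

open scoped commutatorElement
open Equiv

namespace Pool.Agent.P.MP_bb0bfc_al.EV

/-- Binary sequences. -/
abbrev C := Stream' Bool

lemma C_cases {p : C → Prop} (h0 : ∀ s, p (Stream'.cons false s))
    (h1 : ∀ s, p (Stream'.cons true s)) (s : C) : p s := by
  rw [← Stream'.eta s]
  cases s.head
  exacts [h0 _, h1 _]

/-- Act by `a` below the first letter `b`. -/
def lamF (b : Bool) (a : C → C) (s : C) : C :=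
  if s.head = b then Stream'.cons b (a s.tail) else s

@[simp] lemma lamF_cons (b c : Bool) (a : C → C) (s : C) :
    lamF b a (Stream'.cons c s) = if c = b then Stream'.cons b (a s) else Stream'.cons c s := rfl

/-- The permutation acting by `a` below the first letter `b`. -/
def lamP (b : Bool) (a : Perm C) : Perm C where
  toFun := lamF b a
  invFun := lamF b a.symm
  left_inv := by cases b <;> refine C_cases ?_ ?_ <;> simp
  right_inv := by cases b <;> refine C_cases ?_ ?_ <;> simp

/-- The corresponding endomorphism. -/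
def lam (b : Bool) : Perm C →* Perm C where
  toFun := lamP b
  map_one' := by
    refine Equiv.ext ?_
    cases b <;> refine C_cases ?_ ?_ <;> simp [lamP]
  map_mul' x y := by
    refine Equiv.ext ?_
    cases b <;> refine C_cases ?_ ?_ <;> simp [lamP]

@[simp] lemma lam_cons (b c : Bool) (a : Perm C) (s : C) :
    lam b a (Stream'.cons c s) = if c = b then Stream'.cons b (a s) else Stream'.cons c s := rfl

/-- The tree rotation. -/
def rho : Perm C where
  toFun s := if s.head then Stream'.cons true s
    else if s.tail.head then Stream'.cons true (Stream'.cons false s.tail.tail) else s.tail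
  invFun s := if s.head then
      (if s.tail.head then s.tail else Stream'.cons false (Stream'.cons true s.tail.tail))
    else Stream'.cons false s
  left_inv := by
    refine C_cases (C_cases ?_ ?_) ?_ <;> simp
  right_inv := by
    refine C_cases ?_ (C_cases ?_ ?_) <;> simp

@[simp] lemma rho00 (s : C) :
    rho (Stream'.cons false (Stream'.cons false s)) = Stream'.cons false s := rfl
@[simp] lemma rho01 (s : C) : rho (Stream'.cons false (Stream'.cons true s)) =
    Stream'.cons true (Stream'.cons false s) := rfl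
@[simp] lemma rho1 (s : C) :
    rho (Stream'.cons true s) = Stream'.cons true (Stream'.cons true s) := rfl
@[simp] lemma rhi0 (s : C) :
    rho⁻¹ (Stream'.cons false s) = Stream'.cons false (Stream'.cons false s) := rfl
@[simp] lemma rhi10 (s : C) : rho⁻¹ (Stream'.cons true (Stream'.cons false s)) =
    Stream'.cons false (Stream'.cons true s) := rfl
@[simp] lemma rhi11 (s : C) :
    rho⁻¹ (Stream'.cons true (Stream'.cons true s)) = Stream'.cons true s := rfl

/-- The group generated by the tree rotations. -/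
def FF : Subgroup (Perm C) := Subgroup.closure (Set.range fun u => lL lam u rho)

lemma lam_mem (b : Bool) {a : Perm C} (ha : a ∈ FF) : lam b a ∈ FF := by
  have : FF ≤ FF.comap (lam b) := by
    rw [FF, Subgroup.closure_le]
    rintro _ ⟨u, rfl⟩
    exact Subgroup.subset_closure ⟨b :: u, rfl⟩
  exact this ha

/-- The endomorphisms of `FF`. -/
def lF (b : Bool) : FF →* FF := ((lam b).comp FF.subtype).codRestrict FF fun a => lam_mem b a.2

/-- The rotation as an element of `FF`. -/
def rF : FF := ⟨rho, Subgroup.subset_closure ⟨[], rfl⟩⟩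

lemma lL_coe (u : List Bool) (a : FF) : (lL lF u a : Perm C) = lL lam u a := by
  induction u with
  | nil => rfl
  | cons b u ih => rw [lL_cons, lL_cons, ← ih]; rfl

/-- The space acted on. -/
abbrev X := ℤ × C

/-- Action on the second coordinate. -/
def iota : Perm C →* Perm X where
  toFun a := (Equiv.refl ℤ).prodCongr a
  map_one' := rfl
  map_mul' _ _ := rfl

@[simp] lemma iota_apply (a : Perm C) (n : ℤ) (s : C) : iota a (n, s) = (n, a s) := rfl

/-- The half turn. -/
def tau : Perm X where
  toFun x := if x.2.head then (x.1 + 3, Stream'.cons false x.2.tail)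
    else (x.1, Stream'.cons true x.2.tail)
  invFun x := if x.2.head then (x.1, Stream'.cons false x.2.tail)
    else (x.1 - 3, Stream'.cons true x.2.tail)
  left_inv := by
    rintro ⟨n, s⟩
    induction s using C_cases <;> simp
  right_inv := by
    rintro ⟨n, s⟩
    induction s using C_cases <;> simp

@[simp] lemma tau0 (n : ℤ) (s : C) :
    tau (n, Stream'.cons false s) = (n, Stream'.cons true s) := rfl
@[simp] lemma tau1 (n : ℤ) (s : C) :
    tau (n, Stream'.cons true s) = (n + 3, Stream'.cons false s) := rfl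

/-- The central translation. -/
def ww : Perm X := (Equiv.addRight (1 : ℤ)).prodCongr (Equiv.refl C)

@[simp] lemma ww_apply (n : ℤ) (s : C) : ww (n, s) = (n + 1, s) := rfl

lemma ww_zpow (k n : ℤ) (s : C) : (ww ^ k) (n, s) = (n + k, s) := by
  induction k using Int.induction_on generalizing n with
  | zero => simp
  | succ k ih => rw [zpow_add_one, Perm.mul_apply, ww_apply, ih]; congr 1; ring
  | pred k ih =>
    rw [zpow_sub_one, Perm.mul_apply, show ww⁻¹ (n, s) = (n - 1, s) by
      rw [Perm.inv_eq_iff_eq]; simp, ih]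
    congr 1; ring

/-- The group. -/
def GG : Subgroup (Perm X) := Subgroup.closure (Set.range (iota.comp FF.subtype) ∪ {tau, ww})

/-- The inclusion of `FF`. -/
def iG : FF →* GG := (iota.comp FF.subtype).codRestrict GG fun a =>
  Subgroup.subset_closure (Or.inl ⟨a, rfl⟩)

lemma ww_comm {g : Perm X} (hg : g ∈ GG) : Commute ww g := by
  have : GG ≤ Subgroup.centralizer {ww} := by
    rw [GG, Subgroup.closure_le]
    rintro _ (⟨a, rfl⟩ | rfl | rfl) <;>
      simp only [SetLike.mem_coe, Subgroup.mem_centralizer_iff, Set.mem_singleton_iff,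
        forall_eq]
    · rfl
    · refine Equiv.ext ?_
      rintro ⟨n, s⟩
      induction s using C_cases <;> simp
      ring
  exact this hg ww rfl

/-- The relations hold. -/
def TT : Th FF GG where
  l := lF
  r := rF
  i := iG
  t := ⟨tau, Subgroup.subset_closure (by simp)⟩
  w := ⟨ww, Subgroup.subset_closure (by simp)⟩
  comm a b := Subtype.ext (Equiv.ext (by
    show ∀ s, lam false a (lam true b s) = lam true b (lam false a s)
    refine C_cases ?_ ?_ <;> simp))
  c00 a := Subtype.ext (Equiv.ext (by
    show ∀ s, rho (lam false (lam false a) s) = lam false a (rho s)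
    refine C_cases (C_cases ?_ ?_) ?_ <;> simp))
  c01 a := Subtype.ext (Equiv.ext (by
    show ∀ s, rho (lam false (lam true a) s) = lam true (lam false a) (rho s)
    refine C_cases (C_cases ?_ ?_) ?_ <;> simp))
  c1 a := Subtype.ext (Equiv.ext (by
    show ∀ s, rho (lam true a s) = lam true (lam true a) (rho s)
    refine C_cases (C_cases ?_ ?_) ?_ <;> simp))
  pent := Subtype.ext (Equiv.ext (by
    show ∀ s, rho (rho s) = lam true rho (rho (lam false rho s))
    refine C_cases (C_cases (C_cases ?_ ?_) ?_) ?_ <;> simp))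
  genF := by
    apply Subgroup.map_injective FF.subtype_injective
    rw [MonoidHom.map_closure, ← MonoidHom.range_eq_map, Subgroup.range_subtype, ← Set.range_comp]
    exact congrArg _ (congrArg _ (funext fun u => lL_coe u rF))
  genG := by
    apply Subgroup.map_injective GG.subtype_injective
    rw [MonoidHom.map_closure, ← MonoidHom.range_eq_map, Subgroup.range_subtype, Set.image_union,
      ← Set.range_comp, Set.image_pair]
    rfl
  wc g := Subtype.ext (ww_comm g.2)
  tt := Subtype.ext (Equiv.ext (by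
    show ∀ x, tau (tau x) = (ww ^ 3) x
    rintro ⟨n, s⟩
    induction s using C_cases <;> simp [pow_succ] <;> ring))
  t0 a := Subtype.ext (Equiv.ext (by
    show ∀ x, tau (iota (lam false a) x) = iota (lam true a) (tau x)
    rintro ⟨n, s⟩
    induction s using C_cases <;> simp))
  trt := Subtype.ext (Equiv.ext (by
    show ∀ x, tau (iota rho (tau x)) = (ww ^ 3) (iota rho⁻¹ (tau (iota rho⁻¹ x)))
    rintro ⟨n, s⟩
    revert s
    refine C_cases ?_ (C_cases ?_ ?_) <;> simp [pow_succ, -Perm.coe_inv, -map_inv] <;> ring))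

/-! ### The integer displacement -/

lemma ais (f : Perm X) (x : X) : f (f⁻¹ x) = x := f.apply_symm_apply x

lemma coe_nf (g : GG) : ∃ n : ℤ, ∃ f ∈ FF, (g : Perm X) = ww ^ n * iota f ∨
    ∃ f' ∈ FF, (g : Perm X) = ww ^ n * (iota f * tau * iota f') := by
  obtain ⟨n, f, rfl | ⟨f', rfl⟩⟩ := TT.nf g
  · exact ⟨n, f, f.2, Or.inl (by rw [Subgroup.coe_mul, Subgroup.coe_zpow]; rfl)⟩
  · exact ⟨n, f, f.2, Or.inr ⟨f', f'.2, by rw [Subgroup.coe_mul, Subgroup.coe_zpow]; rfl⟩⟩

lemma disp (g : GG) : ∃ n : ℤ, ∀ x : X,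
    ((g : Perm X) x).1 = x.1 + n ∨ ((g : Perm X) x).1 = x.1 + n + 3 := by
  obtain ⟨n, f, -, e | ⟨f', -, e⟩⟩ := coe_nf g
  · exact ⟨n, fun ⟨m, s⟩ => by simp [e, ww_zpow]⟩
  · refine ⟨n, fun ⟨m, s⟩ => ?_⟩
    simp only [e, Perm.mul_apply, iota_apply]
    generalize f' s = s'
    induction s' using C_cases <;> simp [ww_zpow]
    ring

lemma disp_comm (p q : GG) (x : X) : ∃ k : ℤ, k ≤ 2 ∧ ((⁅p, q⁆ : GG) : Perm X) x =
    (x.1 + 3 * k, (((⁅p, q⁆ : GG) : Perm X) x).2) := by
  obtain ⟨n, hn⟩ := disp p
  obtain ⟨m, hm⟩ := disp q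
  have e : ((⁅p, q⁆ : GG) : Perm X) x =
      (p : Perm X) ((q : Perm X) ((p : Perm X)⁻¹ ((q : Perm X)⁻¹ x))) := rfl
  have h1 := hm ((q : Perm X)⁻¹ x)
  have h2 := hn ((p : Perm X)⁻¹ ((q : Perm X)⁻¹ x))
  have h3 := hm ((p : Perm X)⁻¹ ((q : Perm X)⁻¹ x))
  have h4 := hn ((q : Perm X) ((p : Perm X)⁻¹ ((q : Perm X)⁻¹ x)))
  rw [ais] at h1 h2
  rw [← e] at h4
  exact ⟨((((⁅p, q⁆ : GG) : Perm X) x).1 - x.1) / 3, by omega, Prod.ext (by simp only; omega) rfl⟩

lemma disp_list (l : List GG) (hl : ∀ c ∈ l, c ∈ commutatorSet GG) (x : X) :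
    ∃ k : ℤ, k ≤ 2 * l.length ∧ ((l.prod : GG) : Perm X) x =
      (x.1 + 3 * k, (((l.prod : GG) : Perm X) x).2) := by
  induction l with
  | nil => exact ⟨0, by simp, by simp⟩
  | cons c l ih =>
    obtain ⟨k, hk, e⟩ := ih fun c hc => hl c (List.mem_cons_of_mem _ hc)
    obtain ⟨p, q, rfl⟩ := hl c List.mem_cons_self
    obtain ⟨k', hk', e'⟩ := disp_comm p q (((l.prod : GG) : Perm X) x)
    refine ⟨k + k', by simp only [List.length_cons]; push_cast; omega, Prod.ext ?_ rfl⟩
    have h1 := congrArg Prod.fst e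
    have h2 := congrArg Prod.fst e'
    simp only [List.prod_cons, Subgroup.coe_mul, Perm.mul_apply] at h1 h2 ⊢
    omega

lemma w_apply (k : ℤ) (x : X) : (((TT.w ^ k : GG) : Perm X) x).1 = x.1 + k := by
  obtain ⟨n, s⟩ := x
  rw [Subgroup.coe_zpow]
  exact congrArg Prod.fst (ww_zpow k n s)

theorem cw_infinite : ¬ ∃ n : ℕ, ∀ g ∈ commutator GG, ∃ l : List GG, l.length ≤ n ∧
    (∀ c ∈ l, c ∈ commutatorSet GG) ∧ l.prod = g := by
  rintro ⟨n, h⟩
  obtain ⟨l, h1, h2, h3⟩ := h _ (zpow_mem TT.w3_comm (2 * n + 1))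
  obtain ⟨k, hk, e⟩ := disp_list l h2 (0, Stream'.const false)
  have h4 := congrArg Prod.fst e
  rw [h3, ← zpow_ofNat, ← zpow_mul, w_apply] at h4
  simp only at h4
  omega

theorem w2_not : TT.w ^ 2 ∉ commutator GG := by
  intro h
  have key : ∀ g ∈ commutator GG, ∀ x : X, (3 : ℤ) ∣ ((g : Perm X) x).1 - x.1 := by
    intro g hg
    rw [commutator_eq_closure] at hg
    induction hg using Subgroup.closure_induction with
    | mem c hc =>
      obtain ⟨p, q, rfl⟩ := hc
      intro x
      obtain ⟨k, -, e⟩ := disp_comm p q x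
      have := congrArg Prod.fst e
      simp only at this
      omega
    | one => simp
    | mul a b _ _ ha hb =>
      intro x
      have h1 := hb x
      have h2 := ha ((b : Perm X) x)
      simp only [Subgroup.coe_mul, Perm.mul_apply]
      omega
    | inv a _ ha =>
      intro x
      have h1 := ha ((a : Perm X)⁻¹ x)
      rw [ais] at h1
      rw [Subgroup.coe_inv]
      omega
  have := key _ h (0, Stream'.const false)
  rw [← zpow_ofNat, w_apply] at this
  omega

/-! ### Displacement of a cone -/

lemma take_mono {n : ℕ} {s s' : C} (h : s.take (n + 1) = s'.take (n + 1)) :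
    s.take n = s'.take n := by
  have := congrArg (List.take n) h
  simpa [Stream'.take_take] using this

lemma take_mono' {n : ℕ} (d : ℕ) {s s' : C} (h : s.take (n + d) = s'.take (n + d)) :
    s.take n = s'.take n := by
  induction d with
  | zero => exact h
  | succ d ih => exact ih (take_mono h)

lemma take_cons {n : ℕ} {s s' : C} (c : Bool) (h : s.take n = s'.take n) :
    (Stream'.cons c s).take n = (Stream'.cons c s').take n :=
  take_mono (by rw [Stream'.take_succ_cons, Stream'.take_succ_cons, h])

/-- The first `n` letters of the image depend only on the first `n + d` letters. -/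
def Loc (a : C → C) : Prop :=
  ∃ d, ∀ n s s', s.take (n + d) = s'.take (n + d) → (a s).take n = (a s').take n

lemma Loc.comp {a b : C → C} (ha : Loc a) (hb : Loc b) : Loc fun s => a (b s) := by
  obtain ⟨d, hd⟩ := ha
  obtain ⟨e, he⟩ := hb
  exact ⟨d + e, fun n s s' h => hd n _ _ (he (n + d) s s' (by rwa [add_assoc]))⟩

lemma loc_step {a : C → C} (h0 : Loc fun s => a (Stream'.cons false s))
    (h1 : Loc fun s => a (Stream'.cons true s)) : Loc a := by
  obtain ⟨d, hd⟩ := h0
  obtain ⟨e, he⟩ := h1
  refine ⟨d + e + 1, fun n s s' => ?_⟩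
  rw [← add_assoc n]
  induction s using C_cases <;> induction s' using C_cases <;>
    simp only [Stream'.take_succ_cons, List.cons.injEq, true_and, Bool.false_eq_true,
      Bool.true_eq_false, false_and, false_imp_iff]
  · exact fun h => hd n _ _ (take_mono' e (by rwa [add_assoc]))
  · exact fun h => he n _ _ (take_mono' d (by rwa [add_assoc, add_comm e]))

lemma loc_id : Loc fun s => s := ⟨0, fun _ _ _ h => h⟩

lemma loc_cons (c : Bool) : Loc (Stream'.cons c) := ⟨0, fun _ _ _ h => take_cons c h⟩

lemma loc_rho : Loc rho :=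
  loc_step (loc_step (loc_cons false) ((loc_cons true).comp (loc_cons false)))
    ((loc_cons true).comp (loc_cons true))

lemma loc_rhi : Loc (rho⁻¹ : Perm C) :=
  loc_step ((loc_cons false).comp (loc_cons false))
    (loc_step ((loc_cons false).comp (loc_cons true)) (loc_cons true))

lemma loc_lam {a : Perm C} (h : Loc a) (b : Bool) : Loc (lam b a) := by
  cases b
  · exact loc_step ((loc_cons false).comp h) (loc_cons true)
  · exact loc_step (loc_cons false) ((loc_cons true).comp h)

lemma loc_lL {a : Perm C} (h : Loc a) (u : List Bool) : Loc (lL lam u a) := by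
  induction u with
  | nil => exact h
  | cons b u ih => exact loc_lam ih b

lemma loc_F {f : Perm C} (hf : f ∈ FF) : Loc f := by
  induction hf using Subgroup.closure_induction_left with
  | one => exact loc_id
  | mul_left x hx y _ ih =>
    obtain ⟨v, rfl⟩ := hx
    exact (loc_lL loc_rho v).comp ih
  | inv_mul_cancel x hx y _ ih =>
    obtain ⟨v, rfl⟩ := hx
    rw [← map_inv]
    exact (loc_lL loc_rhi v).comp ih

lemma fix_F {f : Perm C} (hf : f ∈ FF) : f (Stream'.const false) = Stream'.const false := by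
  have h0 : ∀ u, lL lam u rho (Stream'.const false) = Stream'.const false := fun u => by
    induction u with
    | nil =>
      rw [lL_nil]
      conv_lhs => rw [Stream'.const_eq, Stream'.const_eq, rho00]
      exact (Stream'.const_eq _).symm
    | cons b u ih =>
      rw [lL_cons]
      conv_lhs => rw [Stream'.const_eq, lam_cons, ih]
      cases b <;> simp [← Stream'.const_eq]
  have : FF ≤ MulAction.stabilizer (Perm C) (Stream'.const false) := by
    rw [FF, Subgroup.closure_le]
    rintro _ ⟨u, rfl⟩
    exact h0 u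
  exact this hf

lemma lL_fix (u : List Bool) (a : Perm C) (s : C) (h : s.take u.length ≠ u) :
    lL lam u a s = s := by
  induction u generalizing s with
  | nil => simp at h
  | cons b u ih =>
    rw [← Stream'.eta s] at h ⊢
    rw [lL_cons, lam_cons]
    split_ifs with hb
    · rw [ih, hb]
      intro h'
      apply h
      rw [List.length_cons, Stream'.take_succ_cons, h', hb]
    · rfl

/-- The flip of the first letter. -/
def flip1 (s : C) : C := Stream'.cons (!s.head) s.tail

lemma tau_snd (x : X) : (tau x).2 = flip1 x.2 := by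
  obtain ⟨n, s⟩ := x
  induction s using C_cases <;> rfl

lemma loc_flip : Loc flip1 := loc_step (loc_cons true) (loc_cons false)

lemma moved (y : GG) (hy : y ∉ Subgroup.zpowers TT.w) :
    ∃ a : C → C, Loc a ∧ (∀ x, ((y : Perm X) x).2 = a x.2) ∧ ∃ s, a s ≠ s := by
  obtain ⟨n, f, hf, e | ⟨f', hf', e⟩⟩ := coe_nf y
  · refine ⟨f, loc_F hf, fun ⟨m, s⟩ => by simp [e, ww_zpow], ?_⟩
    by_contra hc
    push Not at hc
    refine hy (Subgroup.mem_zpowers_iff.2 ⟨n, Subtype.ext ?_⟩)
    rw [e, show f = 1 from Equiv.ext hc, map_one, mul_one, Subgroup.coe_zpow]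
    rfl
  · refine ⟨fun s => f (flip1 (f' s)), (loc_F hf).comp (loc_flip.comp (loc_F hf')),
      fun ⟨m, s⟩ => ?_, Stream'.const false, ?_⟩
    · simp only [e, Perm.mul_apply, iota_apply]
      have := tau_snd (m, f' s)
      generalize tau (m, f' s) = z at this ⊢
      obtain ⟨k, s'⟩ := z
      simp only at this
      simp [ww_zpow, this]
    · intro h
      simp only [fix_F hf'] at h
      have h2 := f.injective (h.trans (fix_F hf).symm)
      exact Bool.noConfusion (congrArg Stream'.head h2 : true = false)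

theorem displace (y : GG) (hy : y ∉ Subgroup.zpowers TT.w) : ∃ b u, ∀ p q,
    Commute (y * TT.i (lL TT.l (b :: u) p) * y⁻¹) (TT.i (lL TT.l (b :: u) q)) := by
  obtain ⟨a, ⟨d, hd⟩, ha, s, hs⟩ := moved y hy
  obtain ⟨n, hn⟩ : ∃ n, (a s).take n ≠ s.take n := by
    by_contra hc
    push Not at hc
    exact hs (Stream'.take_theorem _ _ hc)
  have hu : s.take (n + d + 1) = s.head :: s.tail.take (n + d) := rfl
  refine ⟨s.head, s.tail.take (n + d), fun p q => Subtype.ext (Commute.eq ?_)⟩
  rw [← hu]
  have hc : ∀ p : FF, ((TT.i (lL TT.l (s.take (n + d + 1)) p) : GG) : Perm X) =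
      iota (lL lam (s.take (n + d + 1)) p) := fun p => congrArg iota (lL_coe _ p)
  have hfix : ∀ (p : FF) (x : X), x.2.take (n + d + 1) ≠ s.take (n + d + 1) →
      iota (lL lam (s.take (n + d + 1)) p) x = x := fun p ⟨m, s'⟩ h => by
    rw [iota_apply, lL_fix _ _ _ (by rwa [Stream'.length_take])]
  simp only [Subgroup.coe_mul, Subgroup.coe_inv, hc]
  refine Perm.Disjoint.commute fun x => ?_
  by_cases h : x.2.take (n + d + 1) = s.take (n + d + 1)
  · left
    rw [Perm.mul_apply, Perm.mul_apply, hfix, ais]
    intro h'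
    have h1 := hd n _ _ (take_mono h')
    rw [← ha, ais] at h1
    exact hn (h1.symm.trans (take_mono' d (take_mono h)))
  · exact Or.inr (hfix q x h)

theorem main : ∃ (G : Type) (_ : Group G), Group.FG G ∧
    (∀ S : Finset G, Subgroup.closure (S : Set G) = ⊤ →
      ∃ n : ℕ, ∀ g : G, ∃ L : List (List G), L.length ≤ n ∧
        (∀ w ∈ L, w.reverse = w ∧ ∀ x ∈ w, x ∈ S ∨ x⁻¹ ∈ S) ∧ (L.map List.prod).prod = g) ∧
    ¬ ∃ n : ℕ, ∀ g ∈ commutator G, ∃ l : List G, l.length ≤ n ∧
      (∀ c ∈ l, c ∈ commutatorSet G) ∧ l.prod = g :=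
  ⟨GG, inferInstance, TT.fg,
    fun _ hS => pw_of TT.w TT.wc TT.bdd (TT.normal_mem displace) w2_not hS, cw_infinite⟩

end Pool.Agent.P.MP_bb0bfc_al.EV
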